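import Pool.Agent.H67.AG.T7

/-!
Module SLV: the selection changes slowly.
-/

set_option autoImplicit false

open MeasureTheory ProbabilityTheory Filter Topology Finset
open scoped Nat ENNReal

namespace Pool.Agent.H34.AG

open Pool.Agent.H67.AG

/-! ### iterates -/

theorem slv_TT {X : Type} [MeasurableSpace X] [StandardBorelSpace X] (T : X ≃ᵐ X) (n : ℕ)
    (q : X × X) : (TT T)^[n] q = (T^[n] q.1, T^[n] q.2) := by
  induction n generalizing q with
  | zero => rfl
  | succ n ih =>
    rw [Function.iterate_succ_apply, ih, Function.iterate_succ_apply, Function.iterate_succ_apply]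
    rfl

theorem slv_TX {X : Type} [MeasurableSpace X] [StandardBorelSpace X] (T : X ≃ᵐ X) (m n : ℕ)
    (q : XX X m) : (TX T m)^[n] q =
      ((T^[n] q.1.1, T^[n] q.1.2), (fun b => T^[n] (q.2.1 b), T^[n] q.2.2)) := by
  induction n generalizing q with
  | zero => rfl
  | succ n ih =>
    rw [Function.iterate_succ_apply, ih]
    simp only [Function.iterate_succ_apply]
    rfl

/-! ### the total mismatch -/

section mis

variable (c : CtxE)

/-- the total mismatch -/
noncomputable def gs (q : c.X × c.X) : ℝ := ∑ i, dl c.D1 c.D2 i q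

theorem slv_dl_nonneg (i : Fin c.k) (q : c.X × c.X) : 0 ≤ dl c.D1 c.D2 i q := by
  unfold dl
  split_ifs <;> norm_num

theorem slv_dl_le (i : Fin c.k) (q : c.X × c.X) : dl c.D1 c.D2 i q ≤ 1 := by
  unfold dl
  split_ifs <;> norm_num

theorem slv_gs_nonneg (q : c.X × c.X) : 0 ≤ gs c q := sum_nonneg fun i _ => slv_dl_nonneg c i q

theorem slv_gs_le (q : c.X × c.X) : gs c q ≤ c.k := by
  unfold gs
  calc ∑ i, dl c.D1 c.D2 i q ≤ ∑ _i : Fin c.k, (1 : ℝ) := sum_le_sum fun i _ => slv_dl_le c i q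
    _ = c.k := by simp

theorem slv_gs_symm (x y : c.X) : gs c (x, y) = gs c (y, x) := by
  unfold gs
  refine sum_congr rfl fun i _ => ?_
  unfold dl
  by_cases h : c.D1 i (x, y) = c.D2 i (x, y)
  · rw [if_pos h, if_pos (show c.D1 i (y, x) = c.D2 i (y, x) from h.symm)]
  · rw [if_neg h, if_neg (show ¬ c.D1 i (y, x) = c.D2 i (y, x) from fun e => h e.symm)]

theorem slv_gs_tri (x y z : c.X) : gs c (x, z) ≤ gs c (x, y) + gs c (y, z) := by
  unfold gs
  rw [← sum_add_distrib]
  refine sum_le_sum fun i _ => ?_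
  have h1 := slv_dl_nonneg c i (x, y)
  have h2 := slv_dl_nonneg c i (y, z)
  by_cases h : c.D1 i (x, z) = c.D2 i (x, z)
  · have h3 : dl c.D1 c.D2 i (x, z) = 0 := by unfold dl; rw [if_pos h]
    rw [h3]
    linarith
  · have h3 : dl c.D1 c.D2 i (x, z) = 1 := by unfold dl; rw [if_neg h]
    rw [h3]
    by_cases h4 : c.D1 i (x, y) = c.D2 i (x, y)
    · have h5 : ¬ c.D1 i (y, z) = c.D2 i (y, z) := fun e => h (h4.trans e)
      have h6 : dl c.D1 c.D2 i (y, z) = 1 := by unfold dl; rw [if_neg h5]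
      rw [h6]
      linarith
    · have h6 : dl c.D1 c.D2 i (x, y) = 1 := by unfold dl; rw [if_neg h4]
      rw [h6]
      linarith

theorem slv_dL_eq (W L : ℕ) (q : c.X × c.X) :
    c.dL W L q = (∑ l ∈ range L, gs c ((TT c.T)^[W * l] q)) / L := by
  unfold CtxE.dL Av gs
  rw [← sum_div, sum_comm]

theorem slv_dL_nonneg (W L : ℕ) (q : c.X × c.X) : 0 ≤ c.dL W L q := by
  rw [slv_dL_eq]
  exact div_nonneg (sum_nonneg fun l _ => slv_gs_nonneg c _) (Nat.cast_nonneg L)

theorem slv_dL_symm (W L : ℕ) (x y : c.X) : c.dL W L (x, y) = c.dL W L (y, x) := by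
  rw [slv_dL_eq, slv_dL_eq]
  congr 1
  refine sum_congr rfl fun l _ => ?_
  rw [slv_TT, slv_TT]
  exact slv_gs_symm c _ _

theorem slv_dL_tri (W L : ℕ) (x y z : c.X) :
    c.dL W L (x, z) ≤ c.dL W L (x, y) + c.dL W L (y, z) := by
  rw [slv_dL_eq, slv_dL_eq, slv_dL_eq, ← add_div, ← sum_add_distrib]
  refine div_le_div_of_nonneg_right (sum_le_sum fun l _ => ?_) (Nat.cast_nonneg L)
  rw [slv_TT, slv_TT, slv_TT]
  exact slv_gs_tri c _ _ _

theorem slv_dL_shift (W L l : ℕ) (q : c.X × c.X) :
    |c.dL W L ((TT c.T)^[W * l] q) - c.dL W L q| ≤ (c.k : ℝ) * l / L := by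
  set g : ℕ → ℝ := fun j => gs c ((TT c.T)^[W * j] q) with hg
  have h0 : ∀ j, 0 ≤ g j := fun j => slv_gs_nonneg c _
  have h1 : ∀ j, g j ≤ c.k := fun j => slv_gs_le c _
  have h2 : ∑ j ∈ range L, gs c ((TT c.T)^[W * j] ((TT c.T)^[W * l] q)) =
      ∑ j ∈ range L, g (l + j) := by
    refine sum_congr rfl fun j _ => ?_
    simp only [hg]
    rw [← Function.iterate_add_apply, ← mul_add, add_comm j l]
  have h3 : ∑ j ∈ range L, g (l + j) = ∑ j ∈ range (l + L), g j - ∑ j ∈ range l, g j := by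
    rw [sum_range_add]
    ring
  have h4 : ∑ j ∈ range (l + L), g j = ∑ j ∈ range L, g j + ∑ j ∈ range l, g (L + j) := by
    rw [add_comm l L, sum_range_add]
  have h5 : ∀ f : ℕ → ℝ, (∀ j, 0 ≤ f j) → (∀ j, f j ≤ c.k) →
      0 ≤ ∑ j ∈ range l, f j ∧ ∑ j ∈ range l, f j ≤ (c.k : ℝ) * l := by
    intro f hf0 hf1
    refine ⟨sum_nonneg fun j _ => hf0 j, ?_⟩
    calc ∑ j ∈ range l, f j ≤ ∑ _j ∈ range l, (c.k : ℝ) := sum_le_sum fun j _ => hf1 j
      _ = (c.k : ℝ) * l := by rw [sum_const, card_range, nsmul_eq_mul]; ring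
  have h6 := h5 g h0 h1
  have h7 := h5 (fun j => g (L + j)) (fun j => h0 _) (fun j => h1 _)
  rw [slv_dL_eq, slv_dL_eq, h2, h3, h4, ← sub_div, abs_div,
    abs_of_nonneg (Nat.cast_nonneg L : (0 : ℝ) ≤ (L : ℝ))]
  refine div_le_div_of_nonneg_right ?_ (Nat.cast_nonneg L)
  change |∑ j ∈ range L, g j + ∑ j ∈ range l, g (L + j) - ∑ j ∈ range l, g j -
    ∑ j ∈ range L, g j| ≤ _
  rw [abs_le]
  constructor
  · linarith [h6.1, h6.2, h7.1, h7.2]
  · linarith [h6.1, h6.2, h7.1, h7.2]

end mis

/-! ### measurability -/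

section meas

variable (c : CtxE)

theorem slv_Dt_meas (i : Fin c.k) : Measurable (c.Dt i) := by
  unfold Ctx.Dt
  exact c.Dm.comp (c.T.measurable.iterate _)

theorem slv_dl_meas (i : Fin c.k) : Measurable (dl c.D1 c.D2 i) := by
  unfold dl
  refine Measurable.ite ?_ measurable_const measurable_const
  exact measurableSet_eq_fun ((slv_Dt_meas c i).comp measurable_fst)
    ((slv_Dt_meas c i).comp measurable_snd)

theorem slv_dL_meas (W L : ℕ) : Measurable (c.dL W L) := by
  unfold CtxE.dL Av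
  refine Finset.measurable_sum _ fun i _ => ?_
  refine Measurable.div_const (Finset.measurable_sum _ fun l _ => ?_) _
  exact (slv_dl_meas c i).comp ((TT c.T).measurable.iterate _)

/-- the first element -/
noncomputable def slvs (n : ℕ) (s : Finset (Fin (n + 1))) : Fin (n + 1) :=
  if h : s.Nonempty then s.min' h else 0

open Classical in
theorem slv_sel_eq (W L n : ℕ) (B : Set c.X) (q : XX c.X (n + 1)) : c.sel W L n B q =
    if q.1.1 ∈ B then slvs n (univ.filter fun b => c.dL W L (q.2.1 b, q.2.2) ≤ 1 / 2) else 0 := by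
  unfold CtxE.sel slvs
  by_cases h1 : q.1.1 ∈ B
  · by_cases h2 : (univ.filter fun b => c.dL W L (q.2.1 b, q.2.2) ≤ 1 / 2).Nonempty
    · rw [dif_pos ⟨h2, h1⟩, if_pos h1, dif_pos h2]
    · rw [dif_neg (fun h => h2 h.1), if_pos h1, dif_neg h2]
  · rw [dif_neg (fun h => h1 h.2), if_neg h1]

open Classical in
theorem slv_sel_meas (W L n : ℕ) (B : Set c.X) (hB : MeasurableSet B) :
    Measurable (c.sel W L n B) := by
  have h0 : c.sel W L n B = fun q : XX c.X (n + 1) => if q.1.1 ∈ B then
      slvs n (univ.filter fun b => c.dL W L (q.2.1 b, q.2.2) ≤ 1 / 2) else 0 :=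
    funext fun q => slv_sel_eq c W L n B q
  rw [h0]
  refine Measurable.ite ?_ ?_ measurable_const
  · exact (measurable_fst.comp measurable_fst) hB
  · let _ : MeasurableSpace (Finset (Fin (n + 1))) := ⊤
    have h1 : Measurable fun q : XX c.X (n + 1) =>
        (univ.filter fun b => c.dL W L (q.2.1 b, q.2.2) ≤ 1 / 2) := by
      refine measurable_to_countable' fun S => ?_
      have h2 : (fun q : XX c.X (n + 1) =>
          (univ.filter fun b => c.dL W L (q.2.1 b, q.2.2) ≤ 1 / 2)) ⁻¹' {S} =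
          ⋂ b : Fin (n + 1), {q | c.dL W L (q.2.1 b, q.2.2) ≤ 1 / 2 ↔ b ∈ S} := by
        ext q
        simp only [Set.mem_preimage, Set.mem_singleton_iff, Set.mem_iInter, Set.mem_ofPred_eq,
          Finset.ext_iff, mem_filter, mem_univ, true_and]
      rw [h2]
      refine MeasurableSet.iInter fun b => ?_
      have h3 : MeasurableSet {q : XX c.X (n + 1) | c.dL W L (q.2.1 b, q.2.2) ≤ 1 / 2} := by
        refine measurableSet_le ?_ measurable_const
        refine (slv_dL_meas c W L).comp ?_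
        exact ((measurable_pi_apply b).comp (measurable_fst.comp measurable_snd)).prodMk
          (measurable_snd.comp measurable_snd)
      by_cases hb : b ∈ S
      · simpa only [hb, iff_true] using h3
      · have h4 : {q : XX c.X (n + 1) | c.dL W L (q.2.1 b, q.2.2) ≤ 1 / 2 ↔ b ∈ S} =
            {q | c.dL W L (q.2.1 b, q.2.2) ≤ 1 / 2}ᶜ := by
          ext q
          simp only [hb, iff_false]
          rfl
        rw [h4]
        exact h3.compl
    exact (measurable_from_top (f := slvs n)).comp h1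

end meas

/-! ### the selection on good configurations -/

section det

variable (c : CtxE) (Z : SA c.X)

theorem slv_gap (W L n : ℕ) (B : Set c.X) (q : XX c.X (n + 1)) (hq : q ∈ c.GG Z W L n B)
    (b : Fin (n + 1)) :
    c.dL W L (q.2.1 b, q.2.2) ≤ 1 / 50 ∨ 9 / 10 ≤ c.dL W L (q.2.1 b, q.2.2) := by
  obtain ⟨-, ⟨b0, h0⟩, h1⟩ := hq
  by_cases hb : b = b0
  · left
    rw [hb]
    unfold m1 at h0
    linarith
  · obtain ⟨h2, h3⟩ := h1 b b0 hb
    rw [abs_le] at h2
    have h4 := slv_dL_tri c W L (q.2.1 b) (q.2.1 b0) q.2.2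
    have h5 := slv_dL_tri c W L (q.2.1 b) q.2.2 (q.2.1 b0)
    rw [slv_dL_symm c W L q.2.2 (q.2.1 b0)] at h5
    unfold m1 at h0 h3
    rcases h3 with h3 | h3
    · left
      linarith [h2.1, h2.2]
    · right
      linarith [h2.1, h2.2]

theorem slv_mem_iff {W : ℕ} {B : Set c.X} (hB : MeasurableSet[Inv c.T W] B) (l : ℕ) (x : c.X) :
    c.T^[W * l] x ∈ B ↔ x ∈ B := by
  have h1 : (c.T^[W]) ⁻¹' B = B := (MeasurableSpace.measurableSet_invariants.1 hB).2
  induction l generalizing x with
  | zero => simp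
  | succ l ih =>
    rw [mul_add, mul_one, Function.iterate_add_apply]
    refine (ih _).trans ?_
    change x ∈ (c.T^[W]) ⁻¹' B ↔ x ∈ B
    rw [h1]

theorem slv_det {W L n l : ℕ} {B : Set c.X} (hL : 0 < L) (hB : MeasurableSet[Inv c.T W] B)
    (hl : 16 * c.k * l ≤ L) (q : XX c.X (n + 1))
    (hne : c.sel W L n B ((TX c.T (n + 1))^[W * l] q) ≠ c.sel W L n B q) :
    q ∈ c.BG Z W L n B ∨ (TX c.T (n + 1))^[W * l] q ∈ c.BG Z W L n B := by
  classical
  have hq1 : ((TX c.T (n + 1))^[W * l] q).1.1 = c.T^[W * l] q.1.1 := by rw [slv_TX]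
  by_cases hz : q.1.1 ∈ B
  · have hz' : ((TX c.T (n + 1))^[W * l] q).1.1 ∈ B := by
      rw [hq1]
      exact (slv_mem_iff c hB l _).2 hz
    by_contra hcon
    push Not at hcon
    obtain ⟨h1, h2⟩ := hcon
    have g1 : q ∈ c.GG Z W L n B := by
      by_contra h
      exact h1 ⟨hz, h⟩
    have g2 : (TX c.T (n + 1))^[W * l] q ∈ c.GG Z W L n B := by
      by_contra h
      exact h2 ⟨hz', h⟩
    refine hne ?_
    rw [slv_sel_eq, slv_sel_eq, if_pos hz, if_pos hz']
    congr 1
    refine filter_congr fun b _ => ?_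
    have e1 := slv_gap c Z W L n B q g1 b
    have e2 := slv_gap c Z W L n B _ g2 b
    have e3 := slv_dL_shift c W L l (q.2.1 b, q.2.2)
    have e4 : (((TX c.T (n + 1))^[W * l] q).2.1 b, ((TX c.T (n + 1))^[W * l] q).2.2) =
        (TT c.T)^[W * l] (q.2.1 b, q.2.2) := by
      rw [slv_TX, slv_TT]
    rw [e4] at e2 ⊢
    have hL' : (0 : ℝ) < L := by exact_mod_cast hL
    have e5 : (c.k : ℝ) * l / L ≤ 1 / 16 := by
      rw [div_le_iff₀ hL']
      have e6 : ((16 * c.k * l : ℕ) : ℝ) ≤ (L : ℝ) := by exact_mod_cast hl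
      push_cast at e6
      linarith
    rw [abs_le] at e3
    constructor
    · intro h
      rcases e1 with e1 | e1
      · linarith
      · exfalso
        linarith [e3.1, e3.2]
    · intro h
      rcases e2 with e2 | e2
      · linarith
      · exfalso
        linarith [e3.1, e3.2]
  · exfalso
    refine hne ?_
    have hz' : ¬ ((TX c.T (n + 1))^[W * l] q).1.1 ∈ B := by
      rw [hq1]
      exact fun h => hz ((slv_mem_iff c hB l _).1 h)
    rw [slv_sel_eq, slv_sel_eq, if_neg hz, if_neg hz']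

theorem slv_pre {Ω : Type} [MeasurableSpace Ω] (P : Measure Ω) [IsProbabilityMeasure P]
    {f : Ω → Ω} (hf : MeasurePreserving f P P) (A : Set Ω) : P.real (f ⁻¹' A) ≤ P.real A := by
  unfold Measure.real
  exact ENNReal.toReal_mono (measure_ne_top P A) (hf.measure_preimage_le A)

theorem pf_SLV : T_SLV := by
  intro c Z B W L n l P _ hP hW hL hB
  have hBm : MeasurableSet B := (MeasurableSpace.measurableSet_invariants.1 hB).1
  have hit : ∀ m, MeasurePreserving ((TX c.T (n + 1))^[m]) P P := fun m => hP.iterate m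
  have hstep : ∀ l : ℕ, 16 * c.k * l ≤ L →
      P.real {q | c.sel W L n B ((TX c.T (n + 1))^[W * l] q) ≠ c.sel W L n B q} ≤
      2 * P.real (c.BG Z W L n B) := by
    intro l hl
    have h1 : {q | c.sel W L n B ((TX c.T (n + 1))^[W * l] q) ≠ c.sel W L n B q} ⊆
        c.BG Z W L n B ∪ ((TX c.T (n + 1))^[W * l]) ⁻¹' (c.BG Z W L n B) := by
      intro q hq
      exact slv_det c Z hL hB hl q hq
    calc P.real {q | c.sel W L n B ((TX c.T (n + 1))^[W * l] q) ≠ c.sel W L n B q}
        ≤ P.real (c.BG Z W L n B ∪ ((TX c.T (n + 1))^[W * l]) ⁻¹' (c.BG Z W L n B)) :=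
          measureReal_mono h1
      _ ≤ P.real (c.BG Z W L n B) +
          P.real (((TX c.T (n + 1))^[W * l]) ⁻¹' (c.BG Z W L n B)) := measureReal_union_le _ _
      _ ≤ P.real (c.BG Z W L n B) + P.real (c.BG Z W L n B) :=
          add_le_add le_rfl (slv_pre P (hit _) _)
      _ = 2 * P.real (c.BG Z W L n B) := by ring
  refine ⟨slv_sel_meas c W L n B hBm, hstep l, ?_⟩
  intro h hLh hlL
  have hind : ∀ j : ℕ, ∀ l : ℕ, l ≤ j * h →
      P.real {q | c.sel W L n B ((TX c.T (n + 1))^[W * l] q) ≠ c.sel W L n B q} ≤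
      j * (2 * P.real (c.BG Z W L n B)) := by
    intro j
    induction j with
    | zero =>
      intro l hl
      have hl0 : l = 0 := by omega
      have h1 : {q | c.sel W L n B ((TX c.T (n + 1))^[W * l] q) ≠ c.sel W L n B q} = ∅ := by
        ext q
        constructor
        · intro hq
          refine absurd ?_ hq
          rw [hl0]
          rfl
        · intro hq
          exact absurd hq (Set.notMem_empty q)
      rw [h1]
      simp
    | succ j ih =>
      intro l hl
      set s : ℕ := min l h with hs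
      have hs1 : s ≤ h := min_le_right _ _
      have hs2 : s ≤ l := min_le_left _ _
      have hs3 : l - s ≤ j * h := by
        rw [hs]
        have : (j + 1) * h = j * h + h := by ring
        omega
      have h2 := hstep s (by
        rw [hLh]
        exact Nat.mul_le_mul_left _ hs1)
      have h3 := ih (l - s) hs3
      have h4 : {q | c.sel W L n B ((TX c.T (n + 1))^[W * l] q) ≠ c.sel W L n B q} ⊆
          ((TX c.T (n + 1))^[W * (l - s)]) ⁻¹'
            {q | c.sel W L n B ((TX c.T (n + 1))^[W * s] q) ≠ c.sel W L n B q} ∪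
          {q | c.sel W L n B ((TX c.T (n + 1))^[W * (l - s)] q) ≠ c.sel W L n B q} := by
        intro q hq
        by_contra hcon
        rw [Set.mem_union, not_or] at hcon
        obtain ⟨h5, h6⟩ := hcon
        have h7 : c.sel W L n B ((TX c.T (n + 1))^[W * (l - s)] q) = c.sel W L n B q := by
          by_contra h; exact h6 h
        have h8 : c.sel W L n B ((TX c.T (n + 1))^[W * s] ((TX c.T (n + 1))^[W * (l - s)] q)) =
            c.sel W L n B ((TX c.T (n + 1))^[W * (l - s)] q) := by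
          by_contra h; exact h5 h
        refine hq ?_
        rw [← h7, ← h8, ← Function.iterate_add_apply, ← mul_add, Nat.add_sub_cancel' hs2]
      calc P.real {q | c.sel W L n B ((TX c.T (n + 1))^[W * l] q) ≠ c.sel W L n B q}
          ≤ P.real (((TX c.T (n + 1))^[W * (l - s)]) ⁻¹'
            {q | c.sel W L n B ((TX c.T (n + 1))^[W * s] q) ≠ c.sel W L n B q} ∪
            {q | c.sel W L n B ((TX c.T (n + 1))^[W * (l - s)] q) ≠ c.sel W L n B q}) :=
            measureReal_mono h4
        _ ≤ P.real (((TX c.T (n + 1))^[W * (l - s)]) ⁻¹'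
            {q | c.sel W L n B ((TX c.T (n + 1))^[W * s] q) ≠ c.sel W L n B q}) +
            P.real {q | c.sel W L n B ((TX c.T (n + 1))^[W * (l - s)] q) ≠ c.sel W L n B q} :=
            measureReal_union_le _ _
        _ ≤ 2 * P.real (c.BG Z W L n B) + j * (2 * P.real (c.BG Z W L n B)) :=
            add_le_add ((slv_pre P (hit _) _).trans h2) h3
        _ = ((j + 1 : ℕ) : ℝ) * (2 * P.real (c.BG Z W L n B)) := by
            push_cast
            ring
  have hfin := hind (16 * c.k) l (hLh ▸ hlL)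
  refine hfin.trans (le_of_eq ?_)
  push_cast
  ring

end det

end Pool.Agent.H34.AG
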