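import Pool.Agent.H24.AG.Targets

/-!
Module VCS: the sum over a residue class in terms of the characters.
-/

set_option autoImplicit false

namespace Pool.Agent.H34.AG

open Pool.Agent.H24.AG Finset
open Pool.Agent.H30.BV (cv)

open Classical in
theorem vcs_expand (q b : ℕ) (g : ℕ → ℂ) (Y : ℕ) [NeZero q] (hb : b.Coprime q) :
    ps (fun n => if n ≡ b [MOD q] then g n else 0) Y =
      (1 / (q.totient : ℂ)) * ∑ χ : DirichletCharacter ℂ q,
        χ ((b : ZMod q)⁻¹) * ps (fun n => cv χ n * g n) Y := by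
  have hq : 0 < q := Nat.pos_of_ne_zero (NeZero.ne q)
  have hqn : (q.totient : ℂ) ≠ 0 := by
    exact_mod_cast (Nat.totient_pos.2 hq).ne'
  have hu : IsUnit (b : ZMod q) := (ZMod.isUnit_iff_coprime b q).2 hb
  have h1 : ∀ n : ℕ, (if n ≡ b [MOD q] then g n else 0) =
      (1 / (q.totient : ℂ)) * ∑ χ : DirichletCharacter ℂ q,
        χ ((b : ZMod q)⁻¹) * (cv χ n * g n) := by
    intro n
    have h2 := DirichletCharacter.sum_char_inv_mul_char_eq ℂ hu (n : ZMod q)
    have h3 : ∑ χ : DirichletCharacter ℂ q, χ ((b : ZMod q)⁻¹) * (cv χ n * g n) =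
        (if (b : ZMod q) = n then (q.totient : ℂ) else 0) * g n := by
      rw [← h2, sum_mul]
      refine sum_congr rfl fun χ _ => ?_
      unfold cv
      ring
    rw [h3]
    by_cases h : n ≡ b [MOD q]
    · have h4 : (b : ZMod q) = n := ((ZMod.natCast_eq_natCast_iff n b q).2 h).symm
      rw [if_pos h, if_pos h4]
      field_simp
    · have h4 : ¬ (b : ZMod q) = n := fun e => h ((ZMod.natCast_eq_natCast_iff n b q).1 e.symm)
      rw [if_neg h, if_neg h4]
      ring
  unfold ps
  simp_rw [h1]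
  simp_rw [mul_sum]
  rw [sum_comm]
  refine sum_congr rfl fun χ _ => sum_congr rfl fun n _ => ?_
  ring

theorem pf_VCS : T_VCS := by
  intro q b g Y M hq hb hM hχ
  classical
  have hq0 : NeZero q := ⟨by omega⟩
  have hqp : 0 < q.totient := Nat.totient_pos.2 (by omega)
  have hqn : (q.totient : ℂ) ≠ 0 := by exact_mod_cast hqp.ne'
  rw [vcs_expand q b g Y hb, ← add_sum_erase univ _ (mem_univ (1 : DirichletCharacter ℂ q))]
  have hu : IsUnit ((b : ZMod q)) := (ZMod.isUnit_iff_coprime b q).2 hb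
  have hu' : IsUnit ((b : ZMod q)⁻¹) := by
    obtain ⟨u, hu2⟩ := hu
    rw [← hu2, ZMod.inv_coe_unit u]
    exact (u⁻¹).isUnit
  have h1 : (1 : DirichletCharacter ℂ q) ((b : ZMod q)⁻¹) = 1 := MulChar.one_apply hu'
  have h2 : ps (fun n => cv (1 : DirichletCharacter ℂ q) n * g n) Y =
      ps (fun n => if n.Coprime q then g n else 0) Y := by
    unfold ps
    refine sum_congr rfl fun n _ => ?_
    congr 1
    unfold cv
    by_cases h : n.Coprime q
    · simp only [if_pos h]
      rw [MulChar.one_apply ((ZMod.isUnit_iff_coprime n q).2 h), one_mul]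
    · simp only [if_neg h]
      rw [MulChar.map_nonunit _ (fun e => h ((ZMod.isUnit_iff_coprime n q).1 e)), zero_mul]
  rw [h1, h2, one_mul, mul_add, add_sub_cancel_left, norm_mul]
  have h3 : ‖(1 / (q.totient : ℂ))‖ = 1 / (q.totient : ℝ) := by
    rw [norm_div, norm_one, Complex.norm_natCast]
  have h4 : ‖∑ χ ∈ (univ : Finset (DirichletCharacter ℂ q)).erase 1,
      χ ((b : ZMod q)⁻¹) * ps (fun n => cv χ n * g n) Y‖ ≤ (q.totient : ℝ) * M := by
    have h5 : ‖∑ χ ∈ (univ : Finset (DirichletCharacter ℂ q)).erase 1,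
        χ ((b : ZMod q)⁻¹) * ps (fun n => cv χ n * g n) Y‖ ≤
        ∑ _χ ∈ (univ : Finset (DirichletCharacter ℂ q)).erase 1, M := by
      refine (norm_sum_le _ _).trans (sum_le_sum fun χ h => ?_)
      rw [norm_mul]
      calc ‖χ ((b : ZMod q)⁻¹)‖ * ‖ps (fun n => cv χ n * g n) Y‖
          ≤ 1 * M := mul_le_mul (DirichletCharacter.norm_le_one χ _)
            (hχ χ (ne_of_mem_erase h)) (norm_nonneg _) zero_le_one
        _ = M := one_mul M
    rw [sum_const, nsmul_eq_mul] at h5
    refine h5.trans (mul_le_mul_of_nonneg_right ?_ hM)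
    have h6 : ((univ : Finset (DirichletCharacter ℂ q)).erase 1).card ≤ q.totient := by
      refine (card_erase_le).trans (le_of_eq ?_)
      rw [card_univ, ← Nat.card_eq_fintype_card]
      exact DirichletCharacter.card_eq_totient_of_hasEnoughRootsOfUnity ℂ q
    exact_mod_cast h6
  rw [h3]
  have h7 : (0 : ℝ) < q.totient := by exact_mod_cast hqp
  calc 1 / (q.totient : ℝ) * ‖∑ χ ∈ (univ : Finset (DirichletCharacter ℂ q)).erase 1,
      χ ((b : ZMod q)⁻¹) * ps (fun n => cv χ n * g n) Y‖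
      ≤ 1 / (q.totient : ℝ) * ((q.totient : ℝ) * M) :=
        mul_le_mul_of_nonneg_left h4 (by positivity)
    _ = M := by field_simp

end Pool.Agent.H34.AG
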