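import Pool.Agent.H24.AG.Targets

/-!
Module VEC: the residue classes contain the same number of primes (dyadic intervals).
-/

set_option autoImplicit false

namespace Pool.Agent.H34.AG

open Pool.Agent.H24.AG Finset Filter
open Pool.Agent.H30.BV (cv)
open scoped Topology

theorem vec_parts (a : ℕ → ℂ) (w : ℕ → ℝ) (k : ℕ) :
    ∑ i ∈ range k, (w i : ℂ) * a i = (w k : ℂ) * ∑ i ∈ range k, a i +
      ∑ i ∈ range k, ((w i - w (i + 1) : ℝ) : ℂ) * ∑ j ∈ range (i + 1), a j := by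
  induction k with
  | zero => simp
  | succ k ih =>
    rw [sum_range_succ, ih, sum_range_succ (fun i => ((w i - w (i + 1) : ℝ) : ℂ) *
      ∑ j ∈ range (i + 1), a j), sum_range_succ a k]
    push_cast
    ring

theorem vec_abel (a : ℕ → ℂ) (w : ℕ → ℝ) (k : ℕ) (M : ℝ)
    (ha : ∀ j ≤ k, ‖∑ i ∈ range j, a i‖ ≤ M) (hw : Antitone w) (hw0 : ∀ i, 0 ≤ w i) :
    ‖∑ i ∈ range k, (w i : ℂ) * a i‖ ≤ w 0 * M := by
  rw [vec_parts]
  have h1 : ‖(w k : ℂ) * ∑ i ∈ range k, a i‖ ≤ w k * M := by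
    rw [norm_mul, Complex.norm_real, Real.norm_of_nonneg (hw0 k)]
    exact mul_le_mul_of_nonneg_left (ha k le_rfl) (hw0 k)
  have h2 : ‖∑ i ∈ range k, ((w i - w (i + 1) : ℝ) : ℂ) * ∑ j ∈ range (i + 1), a j‖ ≤
      ∑ i ∈ range k, (w i - w (i + 1)) * M := by
    refine (norm_sum_le _ _).trans (sum_le_sum fun i hi => ?_)
    have h3 : 0 ≤ w i - w (i + 1) := sub_nonneg.2 (hw (Nat.le_succ i))
    rw [norm_mul, Complex.norm_real, Real.norm_of_nonneg h3]
    have h4 : i < k := mem_range.1 hi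
    exact mul_le_mul_of_nonneg_left (ha (i + 1) h4) h3
  rw [← sum_mul, sum_range_sub' w] at h2
  refine (norm_add_le _ _).trans ((add_le_add h1 h2).trans (le_of_eq ?_))
  ring

/-- the sum over the primes only -/
noncomputable def vecT (f : ℕ → ℂ) (Y : ℕ) : ℂ :=
  ∑ n ∈ (Icc 1 Y).filter Nat.Prime, ((Real.log n : ℝ) : ℂ) * f n

theorem vec_T_sub (f : ℕ → ℂ) (K : ℝ) (Y : ℕ) (hY : 1 ≤ Y) (hK : ∀ n, ‖f n‖ ≤ K) :
    ‖ps f Y - vecT f Y‖ ≤ K * (2 * √(Y : ℝ) * Real.log Y) := by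
  have h0 : Icc 1 Y = Ioc 0 Y := by
    ext n
    simp only [mem_Icc, mem_Ioc]
    omega
  have h1 : ps f Y - vecT f Y = ∑ n ∈ (Icc 1 Y).filter (fun n => ¬ n.Prime),
      ((ArithmeticFunction.vonMangoldt n : ℝ) : ℂ) * f n := by
    unfold ps vecT
    rw [← sum_filter_add_sum_filter_not (Icc 1 Y) Nat.Prime]
    have h2 : ∑ n ∈ (Icc 1 Y).filter Nat.Prime, ((ArithmeticFunction.vonMangoldt n : ℝ) : ℂ) * f n =
        ∑ n ∈ (Icc 1 Y).filter Nat.Prime, ((Real.log n : ℝ) : ℂ) * f n := by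
      refine sum_congr rfl fun n hn => ?_
      rw [ArithmeticFunction.vonMangoldt_apply_prime (mem_filter.1 hn).2]
    rw [h2, add_sub_cancel_left]
  rw [h1]
  have h3 := Chebyshev.psi_sub_theta_eq_sum_not_prime (Y : ℝ)
  have h4 : (1 : ℝ) ≤ (Y : ℝ) := by exact_mod_cast hY
  have h5 := Chebyshev.psi_sub_theta_le h4
  rw [h3, Nat.floor_natCast] at h5
  have hK0 : 0 ≤ K := (norm_nonneg _).trans (hK 0)
  calc ‖∑ n ∈ (Icc 1 Y).filter (fun n => ¬ n.Prime),
      ((ArithmeticFunction.vonMangoldt n : ℝ) : ℂ) * f n‖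
      ≤ ∑ n ∈ (Icc 1 Y).filter (fun n => ¬ n.Prime), K * ArithmeticFunction.vonMangoldt n := by
        refine (norm_sum_le _ _).trans (sum_le_sum fun n _ => ?_)
        rw [norm_mul, Complex.norm_real, Real.norm_of_nonneg ArithmeticFunction.vonMangoldt_nonneg,
          mul_comm K]
        exact mul_le_mul_of_nonneg_left (hK n) ArithmeticFunction.vonMangoldt_nonneg
    _ = K * ∑ n ∈ (Ioc 0 Y).filter (fun n => ¬ n.Prime), ArithmeticFunction.vonMangoldt n := by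
        rw [← mul_sum, h0]
    _ ≤ K * (2 * √(Y : ℝ) * Real.log Y) := mul_le_mul_of_nonneg_left h5 hK0

theorem vec_primes (f : ℕ → ℂ) (K M : ℝ) (m : ℕ) (hm : 1 ≤ m) (hK : ∀ n, ‖f n‖ ≤ K)
    (hM : ∀ Y ≤ 2 ^ (m + 1), ‖ps f Y‖ ≤ M) :
    ‖∑ p ∈ (Ioc (2 ^ m) (2 ^ (m + 1))).filter Nat.Prime, f p‖ ≤
      2 * (M + K * (2 * √((2 : ℝ) ^ (m + 1)) * Real.log ((2 : ℝ) ^ (m + 1)))) /
        (m * Real.log 2) := by
  have hK0 : 0 ≤ K := (norm_nonneg _).trans (hK 0)
  have hM0 : 0 ≤ M := (norm_nonneg _).trans (hM 0 (Nat.zero_le _))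
  set N : ℕ := 2 ^ m with hN
  have hN1 : 2 ≤ N := by
    calc 2 = 2 ^ 1 := rfl
      _ ≤ 2 ^ m := Nat.pow_le_pow_right (by norm_num) hm
  have hN2 : 2 ^ (m + 1) = N + N := by rw [pow_succ, hN]; ring
  set L : ℝ := M + K * (2 * √((2 : ℝ) ^ (m + 1)) * Real.log ((2 : ℝ) ^ (m + 1))) with hL
  have hT : ∀ Y : ℕ, 1 ≤ Y → Y ≤ 2 ^ (m + 1) → ‖vecT f Y‖ ≤ L := by
    intro Y hY hY2
    have h1 := vec_T_sub f K Y hY hK
    have h2 : (Y : ℝ) ≤ (2 : ℝ) ^ (m + 1) := by exact_mod_cast hY2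
    have hY1 : (1 : ℝ) ≤ (Y : ℝ) := by exact_mod_cast hY
    have h3 : 2 * √(Y : ℝ) * Real.log Y ≤ 2 * √((2 : ℝ) ^ (m + 1)) * Real.log ((2 : ℝ) ^ (m + 1)) :=
      mul_le_mul (mul_le_mul_of_nonneg_left (Real.sqrt_le_sqrt h2) (by norm_num))
        (Real.log_le_log (by linarith) h2) (Real.log_nonneg hY1) (by positivity)
    have h4 : vecT f Y = ps f Y - (ps f Y - vecT f Y) := by ring
    rw [h4, hL]
    exact (norm_sub_le _ _).trans (add_le_add (hM Y hY2) (h1.trans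
      (mul_le_mul_of_nonneg_left h3 hK0)))
  set a : ℕ → ℂ := fun i => if (N + 1 + i).Prime then
    ((Real.log ((N + 1 + i : ℕ) : ℝ) : ℝ) : ℂ) * f (N + 1 + i) else 0 with ha
  set w : ℕ → ℝ := fun i => 1 / Real.log ((N + 1 + i : ℕ) : ℝ) with hw
  have hlog : ∀ i, 0 < Real.log ((N + 1 + i : ℕ) : ℝ) := by
    intro i
    refine Real.log_pos ?_
    have : 1 < N + 1 + i := by omega
    exact_mod_cast this
  have hpart : ∀ j, ∑ i ∈ range j, a i = vecT f (N + j) - vecT f N := by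
    intro j
    induction j with
    | zero => simp
    | succ j ih =>
      rw [sum_range_succ, ih]
      have h1 : Icc 1 (N + (j + 1)) = insert (N + 1 + j) (Icc 1 (N + j)) := by
        ext n
        simp only [mem_Icc, mem_insert]
        omega
      have h2 : N + 1 + j ∉ Icc 1 (N + j) := by
        rw [mem_Icc]
        omega
      unfold vecT
      rw [h1, filter_insert]
      by_cases h3 : (N + 1 + j).Prime
      · rw [if_pos h3, sum_insert (fun h => h2 (mem_filter.1 h).1)]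
        simp only [ha, if_pos h3]
        ring
      · rw [if_neg h3]
        simp only [ha, if_neg h3]
        ring
  have hwm : Antitone w := by
    intro i j hij
    simp only [hw]
    refine one_div_le_one_div_of_le (hlog i) (Real.log_le_log ?_ ?_)
    · positivity
    · have : N + 1 + i ≤ N + 1 + j := by omega
      exact_mod_cast this
  have hmain := vec_abel a w N (2 * L) (by
    intro j hj
    rw [hpart]
    have h1 := hT (N + j) (by omega) (by omega)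
    have h2 := hT N (by omega) (by omega)
    calc ‖vecT f (N + j) - vecT f N‖ ≤ ‖vecT f (N + j)‖ + ‖vecT f N‖ := norm_sub_le _ _
      _ ≤ L + L := add_le_add h1 h2
      _ = 2 * L := by ring) hwm (fun i => (one_div_pos.2 (hlog i)).le)
  have hsum : ∑ p ∈ (Ioc N (2 ^ (m + 1))).filter Nat.Prime, f p =
      ∑ i ∈ range N, (w i : ℂ) * a i := by
    have h1 : Ioc N (2 ^ (m + 1)) = (range N).image (fun i => N + 1 + i) := by
      ext n
      simp only [mem_Ioc, mem_image, mem_range, hN2]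
      constructor
      · rintro ⟨h2, h3⟩
        exact ⟨n - (N + 1), by omega, by omega⟩
      · rintro ⟨i, hi, rfl⟩
        omega
    rw [sum_filter, h1, sum_image (fun x _ y _ h => by simpa using h)]
    refine sum_congr rfl fun i _ => ?_
    by_cases h3 : (N + 1 + i).Prime
    · rw [if_pos h3]
      simp only [ha, hw, if_pos h3]
      have h4 : ((Real.log ((N + 1 + i : ℕ) : ℝ) : ℝ) : ℂ) ≠ 0 := by
        exact_mod_cast (hlog i).ne'
      rw [Complex.ofReal_div, Complex.ofReal_one]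
      rw [← mul_assoc, one_div, inv_mul_cancel₀ h4, one_mul]
    · rw [if_neg h3]
      simp only [ha, if_neg h3, mul_zero]
  rw [hsum]
  refine hmain.trans ?_
  have hL0 : 0 ≤ L := (norm_nonneg _).trans (hT 1 le_rfl (by omega))
  have hm0 : (0 : ℝ) < m := by exact_mod_cast hm
  have hl2 : 0 < Real.log 2 := Real.log_pos (by norm_num)
  have h5 : w 0 ≤ 1 / (m * Real.log 2) := by
    simp only [hw]
    refine one_div_le_one_div_of_le (mul_pos hm0 hl2) ?_
    rw [← Real.log_pow]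
    refine Real.log_le_log (by positivity) ?_
    have : 2 ^ m ≤ N + 1 + 0 := by omega
    exact_mod_cast this
  calc w 0 * (2 * L) ≤ 1 / (m * Real.log 2) * (2 * L) :=
        mul_le_mul_of_nonneg_right h5 (by positivity)
    _ = 2 * L / (m * Real.log 2) := by ring

theorem vec_sqrt (m : ℕ) : √((2 : ℝ) ^ (m + 1)) = 2 ^ m * (√2 * (√2 / 2) ^ m) := by
  have h1 : √((2 : ℝ) ^ (m + 1)) = √2 ^ (m + 1) := by
    rw [Real.sqrt_eq_iff_mul_self_eq (by positivity) (by positivity), ← mul_pow,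
      Real.mul_self_sqrt (by norm_num)]
  rw [h1, div_pow, pow_succ]
  field_simp

theorem vec_lim (ε : ℝ) (hε : 0 < ε) : ∀ᶠ m : ℕ in atTop,
    8 / (((m : ℝ) + 1) * Real.log 2 ^ 2) + 8 * (((m : ℝ) + 1) * (√2 * (√2 / 2) ^ m)) ≤ ε := by
  have hr0 : 0 ≤ √2 / 2 := by positivity
  have hr1 : √2 / 2 < 1 := by
    rw [div_lt_one (by norm_num)]
    calc √2 < √4 := Real.sqrt_lt_sqrt (by norm_num) (by norm_num)
      _ = 2 := by
        rw [show (4 : ℝ) = 2 ^ 2 by norm_num]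
        exact Real.sqrt_sq (by norm_num)
  have h1 : Tendsto (fun m : ℕ => ((m : ℝ) * (√2 / 2) ^ m)) atTop (𝓝 0) :=
    tendsto_self_mul_const_pow_of_lt_one hr0 hr1
  have h2 : Tendsto (fun m : ℕ => (√2 / 2) ^ m) atTop (𝓝 0) :=
    tendsto_pow_atTop_nhds_zero_of_lt_one hr0 hr1
  have h3 : Tendsto (fun m : ℕ => 8 / Real.log 2 ^ 2 * (1 / ((m : ℝ) + 1))) atTop
      (𝓝 (8 / Real.log 2 ^ 2 * 0)) := tendsto_one_div_add_atTop_nhds_zero_nat.const_mul _
  have h4 : Tendsto (fun m : ℕ => 8 * √2 * ((m : ℝ) * (√2 / 2) ^ m + (√2 / 2) ^ m)) atTop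
      (𝓝 (8 * √2 * (0 + 0))) := (h1.add h2).const_mul _
  have h5 := h3.add h4
  rw [mul_zero, add_zero, mul_zero, add_zero] at h5
  filter_upwards [h5.eventually_lt_const hε] with m hm
  refine le_trans (le_of_eq ?_) hm.le
  have hl : Real.log 2 ≠ 0 := (Real.log_pos (by norm_num)).ne'
  have hm1 : ((m : ℝ) + 1) ≠ 0 := by positivity
  field_simp

theorem vec_card (W b m : ℕ) : ∑ p ∈ (Ioc (2 ^ m) (2 ^ (m + 1))).filter Nat.Prime,
    (if p ≡ b [MOD W] then (1 : ℂ) else 0) = ((Pc W b m).card : ℂ) := by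
  rw [← sum_filter, filter_filter, sum_const, nsmul_eq_mul, mul_one]
  rfl

theorem pf_VEC (h : T_VPSI) (hc : T_VCS) : T_VEC := by
  intro W b b' ε hW hb hb' hε
  obtain ⟨X₀, hX⟩ := h 1 1
  have hl2 : 0 < Real.log 2 := Real.log_pos (by norm_num)
  have e1 : ∀ᶠ m : ℕ in atTop, X₀ ≤ (2 : ℝ) ^ m :=
    (tendsto_pow_atTop_atTop_of_one_lt (by norm_num : (1 : ℝ) < 2)).eventually_ge_atTop X₀
  have e2 : ∀ᶠ m : ℕ in atTop, (W : ℝ) / Real.log 2 ≤ (m : ℝ) :=
    tendsto_natCast_atTop_atTop.eventually_ge_atTop _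
  obtain ⟨m₀, hm₀⟩ := eventually_atTop.1 ((e1.and (e2.and (vec_lim ε hε))).and
    (eventually_ge_atTop 1))
  refine ⟨m₀, fun m hm => ?_⟩
  obtain ⟨⟨h1, h2, h3⟩, hm1⟩ := hm₀ m hm
  have hmp : (0 : ℝ) < m := by exact_mod_cast hm1
  set X : ℝ := (2 : ℝ) ^ (m + 1) with hXd
  have hlX : Real.log X = ((m : ℝ) + 1) * Real.log 2 := by
    rw [hXd, Real.log_pow]
    push_cast
    ring
  have hX0 : X₀ ≤ X := h1.trans (by
    rw [hXd]
    exact pow_le_pow_right₀ (by norm_num) (Nat.le_succ m))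
  have hWX : (W : ℝ) ≤ Real.log X ^ 1 := by
    rw [pow_one, hlX]
    rw [div_le_iff₀ hl2] at h2
    nlinarith
  set f : ℕ → ℂ := fun n => (if n ≡ b [MOD W] then (1 : ℂ) else 0) -
    (if n ≡ b' [MOD W] then (1 : ℂ) else 0) with hf
  have hK : ∀ n, ‖f n‖ ≤ 2 := by
    intro n
    simp only [hf]
    refine (norm_sub_le _ _).trans ?_
    have h4 : ∀ (P : Prop) [Decidable P], ‖(if P then (1 : ℂ) else 0)‖ ≤ 1 := by
      intro P _
      split_ifs <;> simp
    have h5 := h4 (n ≡ b [MOD W])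
    have h6 := h4 (n ≡ b' [MOD W])
    linarith
  have hM : ∀ Y ≤ 2 ^ (m + 1), ‖ps f Y‖ ≤ 2 * (X / Real.log X) := by
    intro Y hY
    have hYX : (Y : ℝ) ≤ X := by
      rw [hXd]
      exact_mod_cast hY
    have h4 : ∀ χ : DirichletCharacter ℂ W, χ ≠ 1 →
        ‖ps (fun n => cv χ n * (fun _ => (1 : ℂ)) n) Y‖ ≤ X / Real.log X := by
      intro χ hχ
      have h5 := hX X hX0 W χ hW hWX hχ Y hYX
      simp only [mul_one]
      rw [pow_one] at h5
      exact h5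
    have hnn : 0 ≤ X / Real.log X := by
      rw [hlX]
      positivity
    have h6 := hc W b (fun _ => 1) Y _ hW hb hnn h4
    have h7 := hc W b' (fun _ => 1) Y _ hW hb' hnn h4
    have h8 : ps f Y = ps (fun n => if n ≡ b [MOD W] then (1 : ℂ) else 0) Y -
        ps (fun n => if n ≡ b' [MOD W] then (1 : ℂ) else 0) Y := by
      unfold ps
      rw [← sum_sub_distrib]
      refine sum_congr rfl fun n _ => ?_
      simp only [hf]
      ring
    have h9 : ps f Y = (ps (fun n => if n ≡ b [MOD W] then (1 : ℂ) else 0) Y -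
        (1 / (W.totient : ℂ)) * ps (fun n => if n.Coprime W then (1 : ℂ) else 0) Y) -
        (ps (fun n => if n ≡ b' [MOD W] then (1 : ℂ) else 0) Y -
        (1 / (W.totient : ℂ)) * ps (fun n => if n.Coprime W then (1 : ℂ) else 0) Y) := by
      rw [h8]
      ring
    rw [h9]
    refine (norm_sub_le _ _).trans ((add_le_add h6 h7).trans (le_of_eq ?_))
    ring
  have hmain := vec_primes f 2 (2 * (X / Real.log X)) m hm1 hK hM
  have hsum : ∑ p ∈ (Ioc (2 ^ m) (2 ^ (m + 1))).filter Nat.Prime, f p =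
      (((((Pc W b m).card : ℝ) - (Pc W b' m).card : ℝ)) : ℂ) := by
    simp only [hf]
    rw [sum_sub_distrib, vec_card, vec_card]
    push_cast
    ring
  rw [hsum, Complex.norm_real, Real.norm_eq_abs] at hmain
  refine hmain.trans ?_
  have hX2 : X = 2 * 2 ^ m := by rw [hXd, pow_succ]; ring
  have hsq : √((2 : ℝ) ^ (m + 1)) = 2 ^ m * (√2 * (√2 / 2) ^ m) := vec_sqrt m
  rw [hsq]
  rw [← hXd, hlX]
  have h10 : 2 * (2 * (X / (((m : ℝ) + 1) * Real.log 2)) + 2 * (2 * (2 ^ m * (√2 * (√2 / 2) ^ m)) *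
      (((m : ℝ) + 1) * Real.log 2))) / (m * Real.log 2) =
      (8 / (((m : ℝ) + 1) * Real.log 2 ^ 2) + 8 * (((m : ℝ) + 1) * (√2 * (√2 / 2) ^ m))) *
        2 ^ m / m := by
    rw [hX2]
    have hm2 : ((m : ℝ) + 1) ≠ 0 := by positivity
    field_simp
    ring
  rw [h10]
  exact div_le_div_of_nonneg_right (mul_le_mul_of_nonneg_right h3 (by positivity)) hmp.le

end Pool.Agent.H34.AG
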