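import Pool.Agent.H24.AG.Targets

/-!
Module VRM: Ramanujan sums.
-/

set_option autoImplicit false

namespace Pool.Agent.H34.AG

open Pool.Agent.H24.AG Finset

theorem vrm_sum_dvd {d k : ℕ} (hd : 1 ≤ d) (f : ℕ → ℂ) :
    ∑ a ∈ range (d * k), (if d ∣ a then f a else 0) = ∑ j ∈ range k, f (d * j) := by
  rw [← sum_filter]
  have h1 : (range (d * k)).filter (fun a => d ∣ a) = (range k).image fun j => d * j := by
    ext a
    simp only [mem_filter, mem_range, mem_image]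
    constructor
    · rintro ⟨h, j, rfl⟩
      exact ⟨j, Nat.lt_of_mul_lt_mul_left h, rfl⟩
    · rintro ⟨j, hj, rfl⟩
      exact ⟨Nat.mul_lt_mul_of_pos_left hj hd, Dvd.intro _ rfl⟩
  rw [h1, sum_image]
  intro a _ b _ h
  exact Nat.eq_of_mul_eq_mul_left hd h

theorem vrm_expand (M : ℕ) (hM : 0 < M) (z : ℂ) :
    ∑ a ∈ (range M).filter (fun b => b.Coprime M), z ^ a =
      ∑ d ∈ M.divisors, (ArithmeticFunction.moebius d : ℂ) * ∑ j ∈ range (M / d), (z ^ d) ^ j := by
  have hmu : ∀ g : ℕ, ∑ d ∈ g.divisors, ArithmeticFunction.moebius d =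
      if g = 1 then 1 else 0 := by
    intro g
    rw [← ArithmeticFunction.coe_mul_zeta_apply, ArithmeticFunction.moebius_mul_coe_zeta,
      ArithmeticFunction.one_apply]
  have h1 : ∀ a ∈ range M, (if a.Coprime M then z ^ a else 0) =
      ∑ d ∈ M.divisors, (ArithmeticFunction.moebius d : ℂ) * (if d ∣ a then z ^ a else 0) := by
    intro a _
    have h2 := hmu (a.gcd M)
    have h3 : (a.gcd M).divisors = M.divisors.filter fun d => d ∣ a := by
      ext d
      simp only [Nat.mem_divisors, mem_filter, Nat.dvd_gcd_iff]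
      constructor
      · rintro ⟨⟨h4, h5⟩, -⟩
        exact ⟨⟨h5, by omega⟩, h4⟩
      · rintro ⟨⟨h4, -⟩, h5⟩
        exact ⟨⟨h5, h4⟩, fun e => by
          have := Nat.eq_zero_of_gcd_eq_zero_right e
          omega⟩
    rw [h3, sum_filter] at h2
    have h4 : ∑ d ∈ M.divisors, (ArithmeticFunction.moebius d : ℂ) * (if d ∣ a then z ^ a else 0) =
        ((∑ d ∈ M.divisors, if d ∣ a then ArithmeticFunction.moebius d else 0 : ℤ) : ℂ) * z ^ a := by
      push_cast
      rw [sum_mul]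
      refine sum_congr rfl fun d _ => ?_
      split_ifs <;> simp
    rw [h4, h2]
    unfold Nat.Coprime
    split_ifs <;> simp
  rw [sum_filter, sum_congr rfl h1, sum_comm]
  refine sum_congr rfl fun d hd => ?_
  rw [← mul_sum]
  congr 1
  have hd1 : d ∣ M := (Nat.mem_divisors.1 hd).1
  have hd2 : 1 ≤ d := Nat.pos_of_dvd_of_pos hd1 hM
  conv_lhs => rw [← Nat.mul_div_cancel' hd1]
  rw [vrm_sum_dvd hd2]
  refine sum_congr rfl fun j _ => ?_
  rw [pow_mul]

theorem vrm_ee_pow (x : ℝ) (n : ℕ) : ee x ^ n = ee (x * n) := by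
  unfold ee
  rw [← Complex.exp_nat_mul]
  congr 1
  push_cast
  ring

theorem vrm_ee_one {x : ℝ} (h : ee x = 1) : ∃ n : ℤ, x = n := by
  unfold ee at h
  rw [Complex.exp_eq_one_iff] at h
  obtain ⟨n, hn⟩ := h
  refine ⟨n, ?_⟩
  have h2 : (2 * (Real.pi : ℂ) * Complex.I) ≠ 0 := Complex.two_pi_I_ne_zero
  have h3 : (2 * (Real.pi : ℂ) * Complex.I) * (x : ℂ) = (2 * (Real.pi : ℂ) * Complex.I) * (n : ℂ) := by
    rw [hn]; ring
  exact_mod_cast mul_left_cancel₀ h2 h3

theorem vrm_ee_int (n : ℤ) : ee (n : ℝ) = 1 := by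
  unfold ee
  rw [Complex.exp_eq_one_iff]
  exact ⟨n, by push_cast; ring⟩

theorem pf_VRM : T_VRM := by
  intro q a hq hc
  have hq0 : (q : ℝ) ≠ 0 := by
    have : q ≠ 0 := by omega
    exact_mod_cast this
  have e1 : ∀ b : ℕ, ee ((a : ℝ) * b / q) = ee ((a : ℝ) / q) ^ b := by
    intro b
    rw [vrm_ee_pow]
    congr 1
    ring
  have e2 : ∑ b ∈ (range q).filter (fun b => b.Coprime q), ee ((a : ℝ) * b / q) =
      ∑ b ∈ (range q).filter (fun b => b.Coprime q), ee ((a : ℝ) / q) ^ b :=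
    sum_congr rfl fun b _ => e1 b
  rw [e2, vrm_expand q hq]
  have e3 : ∀ d ∈ q.divisors, d ≠ q → (ArithmeticFunction.moebius d : ℂ) *
      ∑ j ∈ range (q / d), (ee ((a : ℝ) / q) ^ d) ^ j = 0 := by
    intro d hd hdq
    have hd1 : d ∣ q := (Nat.mem_divisors.1 hd).1
    have hd2 : 1 ≤ d := Nat.pos_of_dvd_of_pos hd1 hq
    have hne : ee ((a : ℝ) / q) ^ d ≠ 1 := by
      intro h
      rw [vrm_ee_pow] at h
      obtain ⟨n, hn⟩ := vrm_ee_one h
      have h5 : (a : ℝ) * d = n * q := by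
        rw [← hn]
        field_simp
      have h6 : a * (d : ℤ) = n * (q : ℤ) := by exact_mod_cast h5
      have h7 : (q : ℤ) ∣ a * (d : ℤ) := ⟨n, by rw [h6]; ring⟩
      have h8 : (q : ℤ) ∣ (d : ℤ) := hc.symm.dvd_of_dvd_mul_left h7
      have h9 : q ∣ d := by exact_mod_cast h8
      exact hdq (Nat.dvd_antisymm hd1 h9)
    rw [geom_sum_eq hne, ← pow_mul, Nat.mul_div_cancel' hd1, vrm_ee_pow,
      div_mul_cancel₀ (a : ℝ) hq0, vrm_ee_int, sub_self, zero_div, mul_zero]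
  rw [sum_eq_single_of_mem q (Nat.mem_divisors.2 ⟨dvd_refl q, by omega⟩) e3, Nat.div_self hq,
    sum_range_one, pow_zero, mul_one]
  have h4 := ArithmeticFunction.abs_moebius_le_one (n := q)
  rw [Complex.norm_intCast]
  exact_mod_cast h4

end Pool.Agent.H34.AG
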