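import Pool.Agent.H38.AG.Targets

/-!
Board allg_modules, row BPK: packing of small items
-/

open Pool.Agent.H38.RB Pool.Agent.H38.PS Pool.Agent.H82.RD Pool.Agent.H38.AB Pool.Agent.H38.AG

namespace Pool.Agent.H34.AG

theorem pack (w : ℕ → ℝ) (δ : ℝ) (hδ : 0 < δ) (E : Finset ℕ) : (∀ p ∈ E, 0 ≤ w p) →
    (∀ p ∈ E, w p ≤ δ) → ∃ (L : List (Finset ℕ)) (h : Finset ℕ),
      (∀ s ∈ L, s ⊆ E ∧ ∑ p ∈ s, w p ≤ 2 * δ) ∧ h ⊆ E ∧ ∑ p ∈ h, w p ≤ δ ∧
      (∀ p ∈ E, p ∈ h ∨ ∃ s ∈ L, p ∈ s) ∧ (L.length : ℝ) * δ + ∑ p ∈ h, w p ≤ ∑ p ∈ E, w p := by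
  classical
  induction E using Finset.induction_on with
  | empty =>
    intro _ _
    exact ⟨[], ∅, by simp, by simp, by simpa using hδ.le, by simp, by simp⟩
  | insert a E ha ih =>
    intro h0 h1
    obtain ⟨L, h, hL, hE, hw, hc, hs⟩ := ih (fun p hp => h0 p (Finset.mem_insert_of_mem hp))
      (fun p hp => h1 p (Finset.mem_insert_of_mem hp))
    have hah : a ∉ h := fun h2 => ha (hE h2)
    have hsum : ∑ p ∈ insert a h, w p = w a + ∑ p ∈ h, w p := Finset.sum_insert hah
    have hwa : w a ≤ δ := h1 a (Finset.mem_insert_self a E)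
    have hsub : insert a h ⊆ insert a E := Finset.insert_subset_insert a hE
    have hL' : ∀ s ∈ L, s ⊆ insert a E ∧ ∑ p ∈ s, w p ≤ 2 * δ := fun s hs' =>
      ⟨(hL s hs').1.trans (Finset.subset_insert a E), (hL s hs').2⟩
    by_cases hcase : w a + ∑ p ∈ h, w p ≤ δ
    · refine ⟨L, insert a h, hL', hsub, by rw [hsum]; exact hcase, ?_, ?_⟩
      · intro p hp
        rcases Finset.mem_insert.1 hp with rfl | hp
        · exact Or.inl (Finset.mem_insert_self _ _)
        · rcases hc p hp with h2 | h2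
          · exact Or.inl (Finset.mem_insert_of_mem h2)
          · exact Or.inr h2
      · rw [hsum, Finset.sum_insert ha]
        linarith
    · refine ⟨insert a h :: L, ∅, ?_, by simp, by simpa using hδ.le, ?_, ?_⟩
      · intro s hs'
        rcases List.mem_cons.1 hs' with rfl | hs'
        · exact ⟨hsub, by rw [hsum]; linarith⟩
        · exact hL' s hs'
      · intro p hp
        right
        rcases Finset.mem_insert.1 hp with rfl | hp
        · exact ⟨_, List.mem_cons_self, Finset.mem_insert_self _ _⟩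
        · rcases hc p hp with h2 | ⟨s, h2, h3⟩
          · exact ⟨_, List.mem_cons_self, Finset.mem_insert_of_mem h2⟩
          · exact ⟨s, List.mem_cons_of_mem _ h2, h3⟩
      · rw [Finset.sum_insert ha, List.length_cons, Finset.sum_empty]
        push_cast
        push Not at hcase
        linarith

theorem pf_BPK : T_BPK := by
  intro E w δ hδ h0 h1
  obtain ⟨L, h, hL, hE, hw, hc, hs⟩ := pack w δ hδ E h0 h1
  have hh0 : 0 ≤ ∑ p ∈ h, w p := Finset.sum_nonneg fun p hp => h0 p (hE hp)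
  refine ⟨(h :: L).length, fun i => (h :: L).get i, ?_, ?_, ?_⟩
  · rw [List.length_cons]
    push_cast
    have h2 : (L.length : ℝ) ≤ (∑ p ∈ E, w p) / δ := by
      rw [le_div_iff₀ hδ]
      linarith
    linarith
  · intro i
    show (h :: L).get i ⊆ E ∧ ∑ p ∈ (h :: L).get i, w p ≤ 2 * δ
    rcases List.mem_cons.1 (List.get_mem (h :: L) i) with h2 | h2
    · rw [h2]
      exact ⟨hE, by linarith⟩
    · exact hL _ h2
  · intro p hp
    rcases hc p hp with h2 | ⟨s, h2, h3⟩
    · exact ⟨⟨0, by simp⟩, h2⟩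
    · obtain ⟨i, hi⟩ := List.mem_iff_get.1 (List.mem_cons_of_mem h h2)
      refine ⟨i, ?_⟩
      show p ∈ (h :: L).get i
      rw [hi]
      exact h3

end Pool.Agent.H34.AG
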