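import Pool.Agent.H38.AG.Targets

/-!
Board allg_modules, row EGW: energy of a product of dyadic boxes, with a weight
-/

set_option autoImplicit false

open Pool.Agent.H38.RB Pool.Agent.H38.PS Pool.Agent.H82.RD Pool.Agent.H38.AB Pool.Agent.H38.AG

namespace Pool.Agent.H34.AG

theorem pf_EGW (hHG : T_HGW) : T_EGW := by
  intro G _ _ _ k S B f s n τ H hH hτ hs hS hn hE
  have hτ0 : 0 < τ := by linarith
  have hn1 : ∀ j, (1 : ℝ) ≤ n j := fun j => by exact_mod_cast (hn j).2.1
  have hn0 : ∀ j, (0 : ℝ) < n j := fun j => lt_of_lt_of_le one_pos (hn1 j)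
  have hH0 : (0 : ℝ) < H.card := by exact_mod_cast hH.card_pos
  -- the exponents
  have hsum : ∑ j, (1 : ℝ) / n j ≤ 1 := by
    rcases Nat.eq_zero_or_pos S with h0 | h0
    · have hk : ∀ j : Fin k, False := by
        intro j
        have h1 : s j ≤ ∑ j, s j := Finset.single_le_sum (fun _ _ => Nat.zero_le _)
          (Finset.mem_univ j)
        have h2 := hs j
        omega
      have : (Finset.univ : Finset (Fin k)) = ∅ := Finset.eq_empty_of_forall_notMem
        fun j _ => hk j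
      rw [this, Finset.sum_empty]
      exact zero_le_one
    · have hS0 : (0 : ℝ) < S := by exact_mod_cast h0
      have h1 : ∀ j, (1 : ℝ) / n j ≤ (s j : ℝ) / S := by
        intro j
        rw [div_le_div_iff₀ (hn0 j) hS0, one_mul]
        exact_mod_cast (hn j).1
      calc ∑ j, (1 : ℝ) / n j ≤ ∑ j, (s j : ℝ) / S := Finset.sum_le_sum fun j _ => h1 j
        _ = 1 := by
          rw [← Finset.sum_div, div_eq_one_iff_eq hS0.ne', hS]
          push_cast
          rfl
  have h1 := hHG G k B f n H hH (fun j => (hn j).2.1) hsum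
  refine h1.trans ?_
  have hEn0 : ∀ j, 0 ≤ EW (fun _ : Fin (n j) => B j) (fun _ => f j) H := fun j => by
    unfold EW
    exact Nat.cast_nonneg _
  have h2 : ∀ j, EW (fun _ : Fin (n j) => B j) (fun _ => f j) H ^ ((1 : ℝ) / n j) ≤
      (H.card : ℝ) ^ ((1 : ℝ) / n j) * ((2 ^ s j * ((S : ℝ) + 1)) * τ ^ ((1 : ℝ) / n j)) := by
    intro j
    have hX : EW (fun _ : Fin (n j) => B j) (fun _ => f j) H ≤
        (H.card : ℝ) * ((2 ^ s j * ((S : ℝ) + 1)) ^ n j * τ) := by
      refine (hE j).trans ?_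
      refine mul_le_mul_of_nonneg_left ?_ hH0.le
      refine mul_le_mul_of_nonneg_right ?_ hτ0.le
      rw [mul_pow]
      refine mul_le_mul_of_nonneg_left ?_ (by positivity)
      have h3 : ((n j).factorial : ℝ) ≤ (n j : ℝ) ^ n j := by
        exact_mod_cast Nat.factorial_le_pow (n j)
      refine h3.trans (pow_le_pow_left₀ (hn0 j).le ?_ _)
      have h4 : (n j : ℝ) ≤ S := by exact_mod_cast (hn j).2.2
      linarith
    calc EW (fun _ : Fin (n j) => B j) (fun _ => f j) H ^ ((1 : ℝ) / n j)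
        ≤ ((H.card : ℝ) * ((2 ^ s j * ((S : ℝ) + 1)) ^ n j * τ)) ^ ((1 : ℝ) / n j) :=
          Real.rpow_le_rpow (hEn0 j) hX (by positivity)
      _ = _ := by
          rw [Real.mul_rpow hH0.le (by positivity), Real.mul_rpow (by positivity) hτ0.le]
          have e : ((2 ^ s j * ((S : ℝ) + 1)) ^ n j) ^ ((1 : ℝ) / n j) =
              2 ^ s j * ((S : ℝ) + 1) := by
            rw [one_div]
            exact Real.pow_rpow_inv_natCast (by positivity) (by have := (hn j).2.1; omega)
          rw [e]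
  have h3 : ∏ j, EW (fun _ : Fin (n j) => B j) (fun _ => f j) H ^ ((1 : ℝ) / n j) ≤
      (H.card : ℝ) ^ (∑ j, (1 : ℝ) / n j) * (2 ^ S * ((S : ℝ) + 1) ^ k * τ) := by
    calc ∏ j, EW (fun _ : Fin (n j) => B j) (fun _ => f j) H ^ ((1 : ℝ) / n j)
        ≤ ∏ j, ((H.card : ℝ) ^ ((1 : ℝ) / n j) *
          ((2 ^ s j * ((S : ℝ) + 1)) * τ ^ ((1 : ℝ) / n j))) :=
          Finset.prod_le_prod (fun j _ => Real.rpow_nonneg (hEn0 j) _) fun j _ => h2 j
      _ = (H.card : ℝ) ^ (∑ j, (1 : ℝ) / n j) *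
          (2 ^ S * ((S : ℝ) + 1) ^ k * τ ^ (∑ j, (1 : ℝ) / n j)) := by
          rw [Finset.prod_mul_distrib, Finset.prod_mul_distrib, Finset.prod_mul_distrib,
            Finset.prod_const, Finset.card_univ, Fintype.card_fin, Finset.prod_pow_eq_pow_sum, ← hS,
            Real.rpow_sum_of_pos hτ0, Real.rpow_sum_of_pos hH0]
      _ ≤ _ := by
          refine mul_le_mul_of_nonneg_left ?_ (by positivity)
          refine mul_le_mul_of_nonneg_left ?_ (by positivity)
          calc τ ^ (∑ j, (1 : ℝ) / n j) ≤ τ ^ (1 : ℝ) :=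
              Real.rpow_le_rpow_of_exponent_le hτ hsum
            _ = τ := Real.rpow_one τ
  calc _ ≤ (H.card : ℝ) ^ (1 - ∑ j, (1 : ℝ) / n j) *
      ((H.card : ℝ) ^ (∑ j, (1 : ℝ) / n j) * (2 ^ S * ((S : ℝ) + 1) ^ k * τ)) :=
        mul_le_mul_of_nonneg_left h3 (by positivity)
    _ = _ := by
        rw [← mul_assoc, ← Real.rpow_add hH0, sub_add_cancel, Real.rpow_one]

end Pool.Agent.H34.AG
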